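import Pool.Agent.H94.CB.H13.OT.Wrap
import Pool.Agent.H94.CB.M103

/-!
# BPL Main: the equivalence of the hyperbolicity properties for surfaces of log general type
-/

set_option autoImplicit false

open Topology Filter MvPolynomial

noncomputable section

namespace Pool.Agent.H36.BPL

attribute [-instance] ProperSMul.toContinuousSMul

open Pool.Agent.H17 (PN VanishesAt ZariskiClosedIn HolomorphicInto puncturedDisc PseudoBrodyHyperbolic PseudoPicardHyperbolic)
open Pool.Agent.H13.OT (OrderTwo PseudoBrodyOrderTwo)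

variable {N : ℕ} {P : Ideal (MvPolynomial (Fin (N + 1)) ℂ)}

theorem orderTwo_of_brody {X : Set (PN N)} (h : PseudoBrodyHyperbolic X) : PseudoBrodyOrderTwo X := by
  obtain ⟨Ξ, h1, h2, h3⟩ := h
  exact ⟨Ξ, h1, h2, fun f hf _ hfX hne => h3 f hf hfX hne⟩

theorem brody_of_picard {X : Set (PN N)} (h : PseudoPicardHyperbolic X) : PseudoBrodyHyperbolic X := by
  obtain ⟨Ξ, h1, h2, h3⟩ := h
  exact ⟨Ξ, h1, h2, fun f hf hfX hne z => Pool.Agent.H17R.brody_of_picard h1 h3 hf hfX hne z⟩

end Pool.Agent.H36.BPL
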